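import Pool.Agent.Helper20.FR.Spec

open Polynomial Filter

namespace Pool.Agent.Helper35.FR

open Pool.Agent.Helper20.FR

universe u

variable {k : Type u} [Field k]

/-- the polynomial with the coefficient array `v` -/
noncomputable def pv {n h : ℕ} (v : Fin (n + 1) → Fin (h + 1) → k) : k[X][X] :=
  ∑ i : Fin (n + 1), monomial (i : ℕ) (∑ j : Fin (h + 1), monomial (j : ℕ) (v i j))

lemma pv_coeff {n h : ℕ} (v : Fin (n + 1) → Fin (h + 1) → k) (i : Fin (n + 1)) :
    (pv v).coeff (i : ℕ) = ∑ j : Fin (h + 1), monomial (j : ℕ) (v i j) := by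
  simp only [pv, finsetSum_coeff, coeff_monomial]
  rw [Finset.sum_eq_single i]
  · simp
  · intro b _ hb
    rw [if_neg]
    intro h'
    exact hb (Fin.ext h')
  · simp

lemma pv_coeff_coeff {n h : ℕ} (v : Fin (n + 1) → Fin (h + 1) → k) (i : Fin (n + 1))
    (j : Fin (h + 1)) : ((pv v).coeff (i : ℕ)).coeff (j : ℕ) = v i j := by
  rw [pv_coeff]
  simp only [finsetSum_coeff, coeff_monomial]
  rw [Finset.sum_eq_single j]
  · simp
  · intro b _ hb
    rw [if_neg]
    intro h'
    exact hb (Fin.ext h')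
  · simp

lemma pv_natDegree {n h : ℕ} (v : Fin (n + 1) → Fin (h + 1) → k) : (pv v).natDegree ≤ n := by
  refine natDegree_sum_le_of_forall_le _ _ fun i _ => ?_
  refine (natDegree_monomial_le _).trans ?_
  have := i.2
  omega

lemma pv_hp {n h : ℕ} (v : Fin (n + 1) → Fin (h + 1) → k) : Hp (pv v) ≤ h := by
  refine Finset.sup_le fun i hi => ?_
  have hi' : i ≤ n := (le_natDegree_of_mem_supp i hi).trans (pv_natDegree v)
  have : (pv v).coeff i = ∑ j : Fin (h + 1), monomial (j : ℕ) (v ⟨i, by omega⟩ j) :=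
    pv_coeff v ⟨i, by omega⟩
  rw [this]
  refine natDegree_sum_le_of_forall_le _ _ fun j _ => ?_
  refine (natDegree_monomial_le _).trans ?_
  have := j.2
  omega

lemma ev_pv {n h : ℕ} (ξ : LaurentSeries k) (v : Fin (n + 1) → Fin (h + 1) → k) :
    ev ξ (pv v) = ∑ i : Fin (n + 1), ∑ j : Fin (h + 1),
      v i j • (Tz (j : ℕ) * ξ ^ (i : ℕ)) := by
  simp only [ev, pv, eval₂_finsetSum, eval₂_monomial]
  refine Finset.sum_congr rfl fun i _ => ?_
  rw [map_sum, Finset.sum_mul]
  refine Finset.sum_congr rfl fun j _ => ?_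
  rw [iot_monomial, ← HahnSeries.C_mul_eq_smul, ← mul_assoc, Tz, HahnSeries.C_apply,
    HahnSeries.single_mul_single]
  simp

theorem di_thm : S_DI.{u} := by
  intro k _ _ ξ n
  -- degree bound of the powers of `ξ`
  obtain ⟨c, hc⟩ : ∃ c : ℕ, ∀ i : Fin (n + 1), DLe (ξ ^ (i : ℕ)) c := by
    refine ⟨Finset.univ.sup fun i : Fin (n + 1) => (dg (ξ ^ (i : ℕ))).toNat, fun i => ?_⟩
    refine (DLe_self _).mono ?_
    have h1 : (dg (ξ ^ (i : ℕ))).toNat ≤
        Finset.univ.sup fun i : Fin (n + 1) => (dg (ξ ^ (i : ℕ))).toNat :=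
      Finset.le_sup (f := fun i : Fin (n + 1) => (dg (ξ ^ (i : ℕ))).toNat) (Finset.mem_univ i)
    have h2 : dg (ξ ^ (i : ℕ)) ≤ ((Finset.univ.sup fun i : Fin (n + 1) =>
        (dg (ξ ^ (i : ℕ))).toNat : ℕ) : ℤ) := by
      have := Int.self_le_toNat (dg (ξ ^ (i : ℕ)))
      omega
    exact_mod_cast h2
  refine ⟨c, fun h => ?_⟩
  -- the linear map of the digits
  let φ : (Fin (n + 1) → Fin (h + 1) → k) →ₗ[k] (Fin ((n + 1) * h) → k) :=
    { toFun := fun v l => (ev ξ (pv v)).coeff (-((h : ℤ) + c) + (l : ℕ))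
      map_add' := by
        intro v w
        funext l
        simp only [ev_pv, Pi.add_apply, add_smul, Finset.sum_add_distrib, HahnSeries.coeff_add]
      map_smul' := by
        intro a v
        funext l
        simp only [ev_pv, Pi.smul_apply, smul_eq_mul, mul_smul, ← Finset.smul_sum,
          HahnSeries.coeff_smul, RingHom.id_apply] }
  have hker : LinearMap.ker φ ≠ ⊥ := by
    apply LinearMap.ker_ne_bot_of_finrank_lt
    rw [Module.finrank_pi, Module.finrank_pi_fintype]
    simp only [Module.finrank_pi, Fintype.card_fin, Finset.sum_const, Finset.card_univ,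
      smul_eq_mul]
    nlinarith
  obtain ⟨v, hv, hv0⟩ := (Submodule.ne_bot_iff _).1 hker
  refine ⟨pv v, ?_, pv_natDegree v, pv_hp v, ?_⟩
  · intro h0
    apply hv0
    funext i j
    rw [← pv_coeff_coeff v i j, h0]
    simp
  · intro m hm
    rw [LinearMap.mem_ker] at hv
    by_cases hlt : (m : ℝ) < -((h : ℝ) + c)
    · have : DLe (ev ξ (pv v)) ((h : ℝ) + c) := by
        rw [ev, eval₂_eq_sum_range]
        refine DLe.sum _ fun i hi => ?_
        have hi' : i ≤ n := by
          have := Finset.mem_range.1 hi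
          have := pv_natDegree v
          omega
        refine DLe.mul ?_ (hc ⟨i, by omega⟩)
        refine (DLe_iot _).mono ?_
        have : ((pv v).coeff i).natDegree ≤ h := by
          by_cases h0 : i ∈ (pv v).support
          · exact (Finset.le_sup (f := fun i => ((pv v).coeff i).natDegree) h0).trans (pv_hp v)
          · rw [notMem_support_iff.1 h0]; simp
        exact_mod_cast this
      exact this m hlt
    · push Not at hlt
      have h1 : -((h : ℤ) + c) ≤ m := by exact_mod_cast hlt
      have h2 : m < (n : ℤ) * h - c := by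
        have : (m : ℝ) < (n : ℝ) * h - c := by linarith
        exact_mod_cast this
      have h3 : (m + (h + c)).toNat < (n + 1) * h := by
        have : (((m + (h + c)).toNat : ℕ) : ℤ) < ((n + 1) * h : ℕ) := by
          rw [Int.toNat_of_nonneg (by omega)]
          push_cast
          nlinarith
        exact_mod_cast this
      have h4 := congrFun hv ⟨(m + (h + c)).toNat, h3⟩
      simp only [φ, LinearMap.coe_mk, AddHom.coe_mk, Pi.zero_apply] at h4
      rw [Int.toNat_of_nonneg (by omega)] at h4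
      rw [← h4]
      congr 1
      ring

end Pool.Agent.Helper35.FR
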