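import Pool.Agent.Helper20.FR.Spec

open Polynomial Filter

namespace Pool.Agent.Helper35.FR

open Pool.Agent.Helper20.FR

universe u

section

variable {k : Type u} [Field k] {N E : Type} [Fintype N] [DecidableEq N] [Fintype E]
  [DecidableEq E]

/-- the block matrix -/
noncomputable def DD (A : Matrix N N k[X]) (Γ : Matrix E E (LaurentSeries k)) :
    Matrix (N ⊕ E) (N ⊕ E) (LaurentSeries k) :=
  Matrix.fromBlocks (A.map iot) 0 0 Γ

omit [DecidableEq N] [DecidableEq E] in
lemma big_step {p : ℕ} [Fact p.Prime] [CharP k p] (s : ℕ) (U : Matrix E N (LaurentSeries k))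
    (A : Matrix N N k[X]) (Γ : Matrix E E (LaurentSeries k))
    (hU : U * A.map iot = Γ * U.map (fun z => z ^ p ^ s)) {κ : ℕ} (X : Matrix N (Fin κ) k[X]) :
    big U (A * X.map fun z => z ^ p ^ s) = DD A Γ * (big U X).map fun z => z ^ p ^ s := by
  have hsum : ∀ (f : N → LaurentSeries k), (∑ i, f i) ^ p ^ s = ∑ i, f i ^ p ^ s := by
    intro f
    exact sum_pow_char_pow p s Finset.univ f
  refine Matrix.ext fun a b => ?_
  rcases a with a | a
  · simp [big, DD, Matrix.mul_apply, Matrix.fromBlocks]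
  · have h1 : ∀ c, (U * A.map iot) a c = (Γ * U.map (fun z => z ^ p ^ s)) a c := by
      intro c; rw [hU]
    simp only [Matrix.mul_apply, Matrix.map_apply] at h1
    have h2 : big U (A * X.map fun z => z ^ p ^ s) (Sum.inr a) b =
        ∑ c, (∑ i, U a i * iot (A i c)) * iot (X c b) ^ p ^ s := by
      simp only [big, Uv, Matrix.mulVec, dotProduct, Matrix.of_apply, Sum.elim_inr,
        Matrix.mul_apply, Matrix.map_apply, map_sum, map_mul, map_pow, Finset.mul_sum,
        Finset.sum_mul]
      rw [Finset.sum_comm]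
      refine Finset.sum_congr rfl fun c _ => Finset.sum_congr rfl fun i _ => ?_
      ring
    rw [h2]
    simp only [h1, big, DD, Uv, Matrix.mulVec, dotProduct, Matrix.of_apply, Sum.elim_inr,
      Matrix.mul_apply, Matrix.map_apply, Fintype.sum_sum_type, Matrix.fromBlocks_apply₂₁,
      Matrix.fromBlocks_apply₂₂, Matrix.zero_apply, zero_mul, Finset.sum_const_zero, zero_add,
      hsum, Finset.sum_mul, Finset.mul_sum]
    rw [Finset.sum_comm]
    refine Finset.sum_congr rfl fun c _ => Finset.sum_congr rfl fun i _ => ?_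
    rw [mul_pow, mul_assoc]

lemma mnr_frob {p : ℕ} [Fact p.Prime] [CharP k p] (s : ℕ) {ι : Type} {κ : ℕ}
    (M : Matrix ι (Fin κ) (LaurentSeries k)) (f : Fin κ → ι) :
    mnr (M.map fun z => z ^ p ^ s) f = mnr M f ^ p ^ s := by
  have h := RingHom.map_det (iterateFrobenius (LaurentSeries k) p s)
    (Matrix.of fun a b => M (f a) b)
  rw [iterateFrobenius_def] at h
  rw [mnr, mnr, h]
  congr 1

omit [Fintype N] [DecidableEq N] [Fintype E] [DecidableEq E] in
lemma kpow_typ (A : Matrix N N k[X]) (Γ : Matrix E E (LaurentSeries k)) {κ : ℕ}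
    (f g : Fin κ → N ⊕ E) (h : kpow κ (DD A Γ) f g ≠ 0) : typ f = typ g := by
  simp only [kpow, Matrix.of_apply, Finset.prod_ne_zero_iff] at h
  simp only [typ]
  congr 1
  refine Finset.filter_congr fun a _ => ?_
  have := h a (Finset.mem_univ a)
  revert this
  rcases f a with x | x <;> rcases g a with y | y <;> simp [DD]

end

theorem typ_thm (hKP : S_KP.{u}) (hPa : S_PLa.{u}) (hPb : S_PLb.{u}) (hPc : S_PLc.{u}) :
    S_TYP.{u} := by
  intro k _ _ p _ _ s hs N E _ _ _ _ U A Γ hA hΓ hU κ Y hY i
  have hr : p ^ s ≠ 0 := pow_ne_zero _ (Fact.out : p.Prime).ne_zero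
  -- the recursion
  have hrec : ∀ j, msk U i (Y (j + 1)) =
      (kpow κ (DD A Γ)).mulVec fun f => msk U i (Y j) f ^ p ^ s := by
    intro j
    funext f
    have h1 : mnr (big U (Y (j + 1))) f =
        ∑ g, kpow κ (DD A Γ) f g * mnr (big U (Y j)) g ^ p ^ s := by
      rw [hY, big_step s U A Γ hU, hPa]
      refine Finset.sum_congr rfl fun g _ => ?_
      rw [mnr_frob]
    simp only [msk, Matrix.mulVec, dotProduct]
    split_ifs with hf
    · rw [h1]
      refine Finset.sum_congr rfl fun g _ => ?_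
      by_cases hg : kpow κ (DD A Γ) f g = 0
      · rw [hg, zero_mul, zero_mul]
      · rw [if_pos ((kpow_typ A Γ f g hg).symm.trans hf)]
    · symm
      refine Finset.sum_eq_zero fun g _ => ?_
      by_cases hg : kpow κ (DD A Γ) f g = 0
      · rw [hg, zero_mul]
      · rw [if_neg (fun h => hf ((kpow_typ A Γ f g hg).trans h)), zero_pow hr, mul_zero]
  by_cases h0 : msk U i (Y 0) = 0
  · left
    intro j
    induction j with
    | zero => exact h0
    | succ j ih =>
      rw [hrec, ih]
      funext f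
      simp [Matrix.mulVec, dotProduct, zero_pow hr]
  · right
    have hD : IsUnit (DD A Γ).det := by
      rw [isUnit_iff_ne_zero, DD, Matrix.det_fromBlocks_zero₂₁]
      refine mul_ne_zero ?_ hΓ
      have : (A.map iot).det = iot A.det := by
        have h := RingHom.map_det (iot : k[X] →+* LaurentSeries k) A
        rw [h]
        rfl
      rw [this]
      rwa [Ne, iot_eq_zero]
    have hone : kpow κ (DD A Γ)⁻¹ * kpow κ (DD A Γ) = 1 := by
      rw [← hPb, Matrix.nonsing_inv_mul _ hD]
      have := hPc (LaurentSeries k) (N ⊕ E) κ 1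
      rw [one_smul, one_pow, one_smul] at this
      exact this
    refine hKP k p s hs (Fin κ → N ⊕ E) (kpow κ (DD A Γ)) (kpow κ (DD A Γ)⁻¹)
      (fun j => msk U i (Y j)) hrec ?_ h0
    intro j
    rw [hrec, Matrix.mulVec_mulVec, hone, Matrix.one_mulVec]

end Pool.Agent.Helper35.FR
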